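import Pool.Agent.W_e21c_h6.Defs

/-!
# Interface of section S5 (mixing of `G b / 2 ^ |b|` modulo `3 ^ n` at fixed `|b|`)

`Decay A` is the input (section S4, Fourier decay), `Mix` the output.
-/

set_option autoImplicit false

noncomputable section

open Finset

namespace Pool.Agent.E21

/-- Fourier decay with exponent `A` (Theorem 4): `u = (3 ^ n + 1) / 2` is the inverse of `2` modulo `3 ^ n`. -/
def Decay (A : ℕ) : Prop :=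
  ∃ C : ℝ, 0 < C ∧ ∀ n : ℕ, 1 ≤ n → ∀ x : ℤ, ¬ (3 : ℤ) ∣ x → ∀ t : ℕ,
    ‖∑ b ∈ comps n t, Complex.exp (2 * Real.pi * Complex.I *
      (((x * (G b : ℤ) * (((3 ^ n + 1) / 2 : ℕ) : ℤ) ^ t : ℤ) : ℂ) / 3 ^ n))‖ ≤ C * 2 ^ t / (n : ℝ) ^ A

/-- Mixing (Theorem 5 with exponent `1`). -/
def Mix : Prop :=
  ∃ C : ℝ, 1 ≤ C ∧ ∀ m n : ℕ, 1 ≤ m → m ≤ n → ∀ LL : Finset ℕ,
    ∑ l ∈ LL, ∑ Y ∈ range (3 ^ n), |nu n n l Y - nu m n l Y / 3 ^ (n - m)| ≤ C / m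

end Pool.Agent.E21
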